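import Pool.Agent.H53.HN.Main

/-! # MP_50acbd_an: for every real Henon map, all but at most four of pairwise not homoclinically
related saddles have a bounded unstable (stable) set whose exponent is at most log 2.

The statement has the format of the frozen statement S04659: f is the real Henon map, g its inverse,
the hypotheses on the sequence p are those of S04659 word for word. -/

set_option autoImplicit false

open Filter Topology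

namespace Pool.Agent.Results.MP_50acbd_an.AllButFour

theorem result :
  ∀ (c b : ℝ), b ≠ 0 → ∀ (f g : ℝ × ℝ → ℝ × ℝ),
    (∀ z : ℝ × ℝ, f z = (z.1 ^ 2 + c - b * z.2, z.1)) →
    (∀ z : ℝ × ℝ, g z = (z.2, (z.2 ^ 2 + c - z.1) / b)) →
    ∀ p : ℕ → ℝ × ℝ,
    (∀ n : ℕ, ∃ m : ℕ, 0 < m ∧ f^[m] (p n) = p n ∧ ∃ μ₁ μ₂ : ℝ,
        Module.End.HasEigenvalue (fderiv ℝ (f^[m]) (p n)).toLinearMap μ₁ ∧
        Module.End.HasEigenvalue (fderiv ℝ (f^[m]) (p n)).toLinearMap μ₂ ∧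
        abs μ₁ < 1 ∧ 1 < abs μ₂) →
    (∀ i j : ℕ, i ≠ j → ¬ ∃ k : ℕ,
      (∃ z : ℝ × ℝ,
        Tendsto (fun t : ℕ => dist (g^[t] z) (g^[t] (p i))) atTop (𝓝 0) ∧
        Tendsto (fun t : ℕ => dist (f^[t] z) (f^[t] (f^[k] (p j)))) atTop (𝓝 0) ∧
        ∃ v w : ℝ × ℝ, v.1 * w.2 - v.2 * w.1 ≠ 0 ∧
          Tendsto (fun t : ℕ => ‖fderiv ℝ (f^[t]) z v‖) atTop (𝓝 0) ∧
          Tendsto (fun t : ℕ => ‖fderiv ℝ (g^[t]) z w‖) atTop (𝓝 0)) ∧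
      (∃ z : ℝ × ℝ,
        Tendsto (fun t : ℕ => dist (f^[t] z) (f^[t] (p i))) atTop (𝓝 0) ∧
        Tendsto (fun t : ℕ => dist (g^[t] z) (g^[t] (f^[k] (p j)))) atTop (𝓝 0) ∧
        ∃ v w : ℝ × ℝ, v.1 * w.2 - v.2 * w.1 ≠ 0 ∧
          Tendsto (fun t : ℕ => ‖fderiv ℝ (f^[t]) z v‖) atTop (𝓝 0) ∧
          Tendsto (fun t : ℕ => ‖fderiv ℝ (g^[t]) z w‖) atTop (𝓝 0))) →
    ∃ T : Finset ℕ, T.card ≤ 4 ∧ ∀ n : ℕ, n ∉ T →
      (Bornology.IsBounded {z : ℝ × ℝ |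
          Tendsto (fun t : ℕ => dist (g^[t] z) (g^[t] (p n))) atTop (𝓝 0)} ∧
        ∀ m : ℕ, 0 < m → f^[m] (p n) = p n →
          ∃ μ : ℝ, Module.End.HasEigenvalue (fderiv ℝ (f^[m]) (p n)).toLinearMap μ ∧
            1 < abs μ ∧ abs (Real.log (abs μ)) / (m : ℝ) ≤ Real.log 2) ∨
      (Bornology.IsBounded {z : ℝ × ℝ |
          Tendsto (fun t : ℕ => dist (f^[t] z) (f^[t] (p n))) atTop (𝓝 0)} ∧
        ∀ m : ℕ, 0 < m → f^[m] (p n) = p n →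
          ∃ μ : ℝ, Module.End.HasEigenvalue (fderiv ℝ (f^[m]) (p n)).toLinearMap μ ∧
            abs μ < 1 ∧ abs (Real.log (abs μ)) / (m : ℝ) ≤ Real.log 2) := by
  intro c b hb f g hf hg p hs hr
  obtain rfl : f = H53.HN.fR c b := funext hf
  obtain rfl : g = H53.HN.gR c b := funext hg
  refine H53.HN.main_thm hb p hs (fun i j hij h => hr i j hij ?_)
  obtain ⟨k, h1, h2⟩ := h
  refine ⟨k, h1, ?_⟩
  obtain ⟨z, hz1, hz2, hz3⟩ := h2
  exact ⟨z, hz2, hz1, hz3⟩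

end Pool.Agent.Results.MP_50acbd_an.AllButFour
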